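import Pool.Agent.H50.NC.Targets

/-!
# NCE: existence of a smallest side and of a vertex in it (helper64, board nck_modules)
-/

set_option autoImplicit false

namespace Pool.Agent.H64.NCK

open Pool.Agent.H48.ER Pool.Agent.H50.NC

theorem pf_NCE (hSDX : T_SDX) (hNCK : T_NCK) : T_NCE := by
  classical
  intro V _ G a b n P hH hN hK hE
  have hex : ∃ k : ℕ, ∃ (a' b' : Fin 3 → V) (n' : Fin 3 → ℕ) (P' : Fin 3 → Set V) (i : Fin 3)
      (S : Set V), Sd G a' b' n' P' i S ∧ S.ncard = k := by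
    obtain ⟨S, hS⟩ := hSDX V G a b n P 0 hE
    exact ⟨S.ncard, a, b, n, P, 0, S, hS, rfl⟩
  obtain ⟨a', b', n', P', i, S, hS, hk⟩ := Nat.find_spec hex
  have hmin : ∀ (a'' b'' : Fin 3 → V) (n'' : Fin 3 → ℕ) (P'' : Fin 3 → Set V) (i'' : Fin 3)
      (S'' : Set V), Sd G a'' b'' n'' P'' i'' S'' → S.ncard ≤ S''.ncard := by
    intro a'' b'' n'' P'' i'' S'' h
    rw [hk]
    exact Nat.find_min' hex ⟨a'', b'', n'', P'', i'', S'', h, rfl⟩
  have hn2 : 2 ≤ n' i := by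
    have h1 := hS.pr.1.pos i
    obtain ⟨c, hc⟩ := hS.pr.2 i
    omega
  obtain ⟨g, h0, hn, hi, ha, hR⟩ := hS.pr.1.ip i
  have hv : g 1 ∈ P' i := by
    rw [hR]
    exact ⟨1, by omega, rfl⟩
  have hva : g 1 ≠ a' i := by
    intro h
    have := hi 1 0 (by omega) (by omega) (h.trans h0.symm)
    omega
  have hvb : g 1 ≠ b' i := by
    intro h
    have := hi 1 (n' i) (by omega) le_rfl (h.trans hn.symm)
    omega
  exact ⟨a', b', n', P', i, S, g 1, hS, hS.int _ hv hva hvb, hv, hva, hvb,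
    hNCK V G a' b' n' P' i S hH hN hK hS hmin⟩

end Pool.Agent.H64.NCK
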